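import Mathlib
import Pool.Agent.R127.Necklace
import Pool.Agent.R127.NecklaceCount

/-!
The poset of connected spanning subgraphs of a connected graph need not be Sperner.

The graph has `26` vertices and `36` edges: six hubs in a row, every two consecutive hubs joined by
three internally disjoint paths of lengths `2, 2, 3`, and an edge joining the first and the last
hub.  The connected spanning subgraphs with `26` edges that contain this last edge, together with
those with `27` edges that do not contain it, form an antichain of `10264576` elements, whereas the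
largest level has `10223616` elements.
-/

namespace Pool.Agent.Results.MP_662923_co.NotSperner

open Finset Pool.Agent.R127.Necklace

/-- the set of edges with given parts -/
def mk (b : Fin 5 → Finset (Fin 7)) (ε : Bool) : Finset E :=
  univ.filter fun e => (match e with
    | none => ε
    | some (i, e) => decide (e ∈ b i)) = true

theorem none_mem_mk (b : Fin 5 → Finset (Fin 7)) (ε : Bool) : none ∈ mk b ε ↔ ε = true := by
  simp [mk]

theorem some_mem_mk (b : Fin 5 → Finset (Fin 7)) (ε : Bool) (i : Fin 5) (e : Fin 7) :
    some (i, e) ∈ mk b ε ↔ e ∈ b i := by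
  simp [mk]

theorem blk_mk (b : Fin 5 → Finset (Fin 7)) (ε : Bool) : blk (mk b ε) = b := by
  funext i
  ext e
  rw [mem_blk, some_mem_mk]

theorem mk_blk (S : Finset E) : mk (blk S) (decide (none ∈ S)) = S := by
  ext e
  rcases e with _ | ⟨i, e⟩
  · rw [none_mem_mk, decide_eq_true_iff]
  · rw [some_mem_mk, mem_blk]

theorem card_eq (S : Finset E) : S.card = tot (blk S) + if none ∈ S then 1 else 0 := by
  classical
  have h1 : S.card = ∑ e : E, if e ∈ S then 1 else 0 := by
    rw [← card_filter]
    simp
  rw [h1, Fintype.sum_option, add_comm, Fintype.sum_prod_type, tot]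
  congr 1
  refine Finset.sum_congr rfl fun i _ => ?_
  rw [blk, card_filter]

/-- the connected edge sets without and with the closing edge -/
theorem connected_mk (b : Fin 5 → Finset (Fin 7)) : ((sub (mk b false)).Connected ↔
    ∀ i, Att (b i) ∧ Con (b i)) ∧ ((sub (mk b true)).Connected ↔
    (∀ i, Att (b i)) ∧ ∀ i j, ¬ Con (b i) → ¬ Con (b j) → i = j) := by
  constructor
  · rw [connected_iff', blk_mk]
    constructor
    · rintro ⟨h1, -, h3⟩ i
      refine ⟨h1 i, ?_⟩
      by_contra hc
      have := h3 i hc
      rw [none_mem_mk] at this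
      exact Bool.false_ne_true this
    · intro h
      exact ⟨fun i => (h i).1, fun i j hi _ => absurd (h i).2 hi, fun i hi => absurd (h i).2 hi⟩
  · rw [connected_iff', blk_mk]
    constructor
    · rintro ⟨h1, h2, -⟩
      exact ⟨h1, h2⟩
    · rintro ⟨h1, h2⟩
      exact ⟨h1, h2, fun _ _ => (none_mem_mk b true).mpr rfl⟩

theorem card_mk (b : Fin 5 → Finset (Fin 7)) : (mk b false).card = tot b ∧
    (mk b true).card = tot b + 1 := by
  constructor
  · rw [card_eq, blk_mk, if_neg, add_zero]
    rw [none_mem_mk]
    exact Bool.false_ne_true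
  · rw [card_eq, blk_mk, if_pos]
    rw [none_mem_mk]

theorem mk_injective (ε : Bool) : Function.Injective fun b => mk b ε := by
  intro b b' h
  have := congrArg blk h
  simpa only [blk_mk] using this

theorem level_bound : ∀ s : Fin 38,
    (if s.val < 36 then ac.getD s 0 else 0) + (if s.val - 1 < 36 then acd.getD (s.val - 1) 0 else 0)
      < 10264576 := by
  decide +kernel

/-- There is a connected graph `G` for which the poset of connected spanning subgraphs has an
antichain that is larger than every level. -/
theorem result : ∃ (V : Type) (_ : Finite V) (G : SimpleGraph V), G.Connected ∧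
    ∃ 𝒜 : Set (SimpleGraph V), (∀ H ∈ 𝒜, H ≤ G ∧ H.Connected) ∧ IsAntichain (· ≤ ·) 𝒜 ∧
      ∀ k : ℕ, {H : SimpleGraph V | H ≤ G ∧ H.Connected ∧ H.edgeSet.ncard = k}.ncard <
        𝒜.ncard := by
  classical
  obtain ⟨A, D, hA, hD, hcA, hcD⟩ := exists_counts
  -- the antichain
  set 𝒜 : Finset (Finset E) := ((D.filter fun b => tot b = 25).image fun b => mk b true) ∪
    ((A.filter fun b => tot b = 27).image fun b => mk b false) with h𝒜
  have hcard : 𝒜.card = 10264576 := by
    rw [h𝒜, card_union_of_disjoint, card_image_of_injective _ (mk_injective true),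
      card_image_of_injective _ (mk_injective false), hcD, hcA]
    · decide +kernel
    · rw [disjoint_left]
      intro S h1 h2
      rw [mem_image] at h1 h2
      obtain ⟨b, -, rfl⟩ := h1
      obtain ⟨b', -, h⟩ := h2
      have h3 : none ∈ mk b true := (none_mem_mk b true).mpr rfl
      rw [← h, none_mem_mk] at h3
      exact Bool.false_ne_true h3
  refine ⟨V, inferInstance, G, ?_, (sub '' (𝒜 : Set (Finset E))), ?_, ?_, ?_⟩
  · rw [G, connected_iff']
    have h1 : ∀ i, blk univ i = univ := by
      intro i
      ext e
      simp [mem_blk]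
    have h2 : Att univ ∧ Con univ := by
      decide +kernel
    refine ⟨fun i => ?_, fun i j hi => ?_, fun i hi => ?_⟩
    · rw [h1]
      exact h2.1
    · rw [h1] at hi
      exact absurd h2.2 hi
    · rw [h1] at hi
      exact absurd h2.2 hi
  · rintro _ ⟨S, hS, rfl⟩
    refine ⟨sub_le_sub.mpr (subset_univ S), ?_⟩
    rw [mem_coe, h𝒜, mem_union, mem_image, mem_image] at hS
    obtain ⟨b, hb, rfl⟩ | ⟨b, hb, rfl⟩ := hS
    · exact (connected_mk b).2.mpr ((hD b).mp (mem_filter.mp hb).1)
    · exact (connected_mk b).1.mpr ((hA b).mp (mem_filter.mp hb).1)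
  · rintro _ ⟨S, hS, rfl⟩ _ ⟨T, hT, rfl⟩ hne hle
    have hST : S ⊆ T := sub_le_sub.mp hle
    have hne' : S ≠ T := fun h => hne (by rw [h])
    have hlt : S.card < T.card := card_lt_card (Finset.ssubset_iff_subset_ne.mpr ⟨hST, hne'⟩)
    rw [mem_coe, h𝒜, mem_union, mem_image, mem_image] at hS hT
    obtain ⟨b, hb, rfl⟩ | ⟨b, hb, rfl⟩ := hS
    · obtain ⟨c, hc, rfl⟩ | ⟨c, hc, rfl⟩ := hT
      · rw [(card_mk b).2, (card_mk c).2, (mem_filter.mp hb).2, (mem_filter.mp hc).2] at hlt
        exact absurd hlt (lt_irrefl _)
      · have h3 : none ∈ mk b true := (none_mem_mk b true).mpr rfl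
        have h4 := hST h3
        rw [none_mem_mk] at h4
        exact absurd h4 Bool.false_ne_true
    · obtain ⟨c, hc, rfl⟩ | ⟨c, hc, rfl⟩ := hT
      · rw [(card_mk b).1, (card_mk c).2, (mem_filter.mp hb).2, (mem_filter.mp hc).2] at hlt
        omega
      · rw [(card_mk b).1, (card_mk c).1, (mem_filter.mp hb).2, (mem_filter.mp hc).2] at hlt
        exact absurd hlt (lt_irrefl _)
  · intro k
    rw [Set.ncard_image_of_injective _ sub_injective, Set.ncard_coe_finset, hcard]
    have h1 : {H : SimpleGraph V | H ≤ G ∧ H.Connected ∧ H.edgeSet.ncard = k} ⊆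
        sub '' (((((A.filter fun b => tot b = k).image fun b => mk b false) ∪
          ((D.filter fun b => tot b = k - 1).image fun b => mk b true)) : Finset (Finset E)) :
            Set (Finset E)) := by
      rintro H ⟨h1, h2, h3⟩
      obtain ⟨S, rfl⟩ : ∃ S, H = sub S := ⟨_, eq_sub H h1⟩
      refine ⟨S, ?_, rfl⟩
      rw [ncard_edgeSet_sub] at h3
      rw [mem_coe, mem_union, mem_image, mem_image]
      rw [← mk_blk S] at h2 h3 ⊢
      by_cases hn : none ∈ S
      · right
        rw [decide_eq_true hn] at h2 h3 ⊢
        refine ⟨blk S, ?_, rfl⟩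
        rw [mem_filter]
        refine ⟨(hD _).mpr ((connected_mk _).2.mp h2), ?_⟩
        rw [(card_mk _).2] at h3
        omega
      · left
        rw [decide_eq_false hn] at h2 h3 ⊢
        refine ⟨blk S, ?_, rfl⟩
        rw [mem_filter]
        refine ⟨(hA _).mpr ((connected_mk _).1.mp h2), ?_⟩
        rw [(card_mk _).1] at h3
        omega
    refine lt_of_le_of_lt (Set.ncard_le_ncard h1 (Set.toFinite _)) ?_
    rw [Set.ncard_image_of_injective _ sub_injective, Set.ncard_coe_finset]
    refine lt_of_le_of_lt (card_union_le _ _) ?_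
    rw [card_image_of_injective _ (mk_injective true),
      card_image_of_injective _ (mk_injective false), hcD, hcA]
    by_cases hk : k < 38
    · exact level_bound ⟨k, hk⟩
    · rw [if_neg (by omega), if_neg (by omega)]
      norm_num

end Pool.Agent.Results.MP_662923_co.NotSperner
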